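import Pool.Agent.Helper77.HY.St

/-! Project HY (helper77), module BBS: list colouring from kernels (Bondy, Boppana, Siegel). -/

set_option autoImplicit false

namespace Pool.Agent.Helper16.HY.BBS

open Pool.Agent.Helper35.PM Pool.Agent.Helper77.HY

theorem main (hKer : StKer) : StBbs := by
  intro V _ G R p O hp hO hE
  have key : ∀ (n : ℕ) (R' : Finset V), R'.card = n → R' ⊆ R → ∀ L : V → Finset ℕ,
      (∀ u ∈ R', (O u ∩ R').card < (L u).card) →
      ∃ c : V → ℕ, (∀ v ∈ R', c v ∈ L v) ∧ ∀ u ∈ R', ∀ v ∈ R', G.Adj u v → c u ≠ c v := by
    intro n
    induction n using Nat.strong_induction_on with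
    | _ n ih =>
      intro R' hn hR' L hL
      rcases R'.eq_empty_or_nonempty with h0 | h0
      · subst h0
        exact ⟨fun _ => 0, by simp, by simp⟩
      · obtain ⟨v0, hv0⟩ := h0
        have hne : (L v0).Nonempty := by
          rw [← Finset.card_pos]
          have := hL v0 hv0
          omega
        obtain ⟨γ, hγ⟩ := hne
        obtain ⟨K, hKU, hKne, hKi, hKd⟩ := hKer V (fun u => (O u : Set V)) p
          (R'.filter (fun u => γ ∈ L u)) (by
            intro u hu v hv huv
            rw [Finset.mem_filter] at hu hv
            exact hp u (hR' hu.1) v (hR' hv.1) (hO u (hR' hu.1) v (by simpa using huv)))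
        have hKne' : K.Nonempty := hKne ⟨v0, by rw [Finset.mem_filter]; exact ⟨hv0, hγ⟩⟩
        have hKR : K ⊆ R' := fun x hx => (Finset.mem_filter.1 (hKU hx)).1
        have hKL : ∀ x ∈ K, γ ∈ L x := fun x hx => (Finset.mem_filter.1 (hKU hx)).2
        have hcard : (R' \ K).card < n := by
          rw [Finset.card_sdiff_of_subset hKR, ← hn]
          have h1 := Finset.card_pos.2 hKne'
          have h2 := Finset.card_le_card hKR
          omega
        obtain ⟨c, hc1, hc2⟩ := ih _ hcard (R' \ K) rfl
          (fun x hx => hR' (Finset.mem_sdiff.1 hx).1) (fun v => (L v).erase γ) (by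
            intro u hu
            rw [Finset.mem_sdiff] at hu
            have h1 := hL u hu.1
            have hsub : O u ∩ (R' \ K) ⊆ O u ∩ R' := by
              intro x hx
              rw [Finset.mem_inter, Finset.mem_sdiff] at hx
              rw [Finset.mem_inter]
              exact ⟨hx.1, hx.2.1⟩
            by_cases hg : γ ∈ L u
            · obtain ⟨v, hvK, hvO⟩ := hKd u (by rw [Finset.mem_filter]; exact ⟨hu.1, hg⟩) hu.2
              have hss : O u ∩ (R' \ K) ⊂ O u ∩ R' := by
                rw [Finset.ssubset_iff_of_subset hsub]
                refine ⟨v, ?_, ?_⟩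
                · rw [Finset.mem_inter]
                  exact ⟨by simpa using hvO, hKR hvK⟩
                · rw [Finset.mem_inter, Finset.mem_sdiff]
                  intro h
                  exact h.2.2 hvK
              have h3 := Finset.card_lt_card hss
              rw [Finset.card_erase_of_mem hg]
              omega
            · rw [Finset.erase_eq_of_notMem hg]
              exact lt_of_le_of_lt (Finset.card_le_card hsub) h1)
        refine ⟨fun v => if v ∈ K then γ else c v, ?_, ?_⟩
        · intro v hv
          by_cases hvK : v ∈ K
          · simp only [hvK, if_true]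
            exact hKL v hvK
          · simp only [hvK, if_false]
            exact Finset.mem_of_mem_erase (hc1 v (Finset.mem_sdiff.2 ⟨hv, hvK⟩))
        · intro u hu v hv huv
          by_cases huK : u ∈ K <;> by_cases hvK : v ∈ K
          · exfalso
            rcases hE u (hR' hu) v (hR' hv) huv with h | h
            · exact hKi u huK v hvK (by simpa using h)
            · exact hKi v hvK u huK (by simpa using h)
          · simp only [huK, hvK, if_true, if_false]
            intro h
            exact (Finset.mem_erase.1 (hc1 v (Finset.mem_sdiff.2 ⟨hv, hvK⟩))).1 h.symm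
          · simp only [huK, hvK, if_true, if_false]
            intro h
            exact (Finset.mem_erase.1 (hc1 u (Finset.mem_sdiff.2 ⟨hu, huK⟩))).1 h
          · simp only [huK, hvK, if_false]
            exact hc2 u (Finset.mem_sdiff.2 ⟨hu, huK⟩) v (Finset.mem_sdiff.2 ⟨hv, hvK⟩) huv
  intro L hL
  exact key _ R rfl (Finset.Subset.refl R) L hL

end Pool.Agent.Helper16.HY.BBS
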